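import Pool.Agent.H13.EDM.Targets

/-!
# Row GNM of edm_modules: one function replaced by a general member of a linear system
-/

set_option autoImplicit false

open MvPolynomial

namespace Pool.Agent.H51.EDM

open Pool.Agent.H8.TD (lc dg Wsp)
open Pool.Agent.H13.EDM

theorem gnm_range {K : Type} {m : ℕ} (x : Fin (m + 1) → K) (i : Fin (m + 1)) (z : K) :
    Set.range (Function.update x i z) = Set.range (x ∘ i.succAbove) ∪ {z} := by
  ext w
  constructor
  · rintro ⟨l, rfl⟩
    by_cases hl : l = i
    · right
      rw [hl, Function.update_self]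
      rfl
    · left
      obtain ⟨j, rfl⟩ := Fin.exists_succAbove_eq hl
      refine ⟨j, ?_⟩
      rw [Function.update_of_ne hl]
      rfl
  · rintro (⟨j, rfl⟩ | hw)
    · refine ⟨i.succAbove j, ?_⟩
      rw [Function.update_of_ne (Fin.succAbove_ne i j)]
      rfl
    · refine ⟨i, ?_⟩
      rw [Function.update_self]
      exact hw.symm

theorem pf_GNM (h1 : T_ADS) (h2 : T_TRD) (h3 : T_IFD) (h4 : T_FGU) (h5 : T_GEN) : T_GNM := by
  classical
  intro n a k K _ _ _ _ φ x i htr hfg
  obtain ⟨m, rfl⟩ : ∃ m, n = m + 1 := ⟨n - 1, by have := i.2; omega⟩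
  have hdg : ∀ z : K, dg k (Set.range (Function.update x i z)) =
      dg (IntermediateField.adjoin k (Set.range (x ∘ i.succAbove))) {z} := by
    intro z
    rw [gnm_range, h1]
  by_cases hai : AlgebraicIndependent k (x ∘ i.succAbove)
  · have htr' : Algebra.trdeg (IntermediateField.adjoin k (Set.range (x ∘ i.succAbove))) K =
        (1 : ℕ) := h2 m 1 k K _ hai (by rw [htr])
    have hfg' := h4 k K (Set.range (x ∘ i.succAbove)) hfg
    obtain ⟨P, hP0, hP⟩ := h5 a k (IntermediateField.adjoin k (Set.range (x ∘ i.succAbove))) K φ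
      htr' hfg'
    refine ⟨P, hP0, fun s hs s' => ?_⟩
    rw [hdg, hdg]
    exact hP s hs s'
  · refine ⟨1, one_ne_zero, fun s _ s' => ?_⟩
    have h0 : dg k (Set.range (Function.update x i (lc s' φ))) = 0 := by
      by_contra hne
      have h6 := (h3 (m + 1) k K _ htr hfg).1 (Nat.one_le_iff_ne_zero.2 hne)
      apply hai
      have h7 := h6.comp i.succAbove Fin.succAbove_right_injective
      have h8 : (Function.update x i (lc s' φ)) ∘ i.succAbove = x ∘ i.succAbove := by
        funext j
        change Function.update x i (lc s' φ) (i.succAbove j) = x (i.succAbove j)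
        rw [Function.update_of_ne (Fin.succAbove_ne i j)]
      rw [h8] at h7
      exact h7
    rw [h0]
    exact Nat.zero_le _

end Pool.Agent.H51.EDM
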