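import Pool.Agent.H13.EDM.Targets

/-!
# Row GRW of edm_modules: the dimension of spaces of products grows at most like a polynomial
-/

set_option autoImplicit false

namespace Pool.Agent.H51.EDM

open Pool.Agent.H8.TD (lc dg Wsp)
open Pool.Agent.H13.EDM

section

variable (κ : Type) {C : Type} [Field κ] [Field C] [Algebra κ C] {s r : ℕ}
  (y : Fin s → C) (z : Fin r → C)

/-- the span of the products of monomials in `y` with exponents at most `u` and the `z` -/
def Vsp (u : ℕ) : Submodule κ C :=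
  Submodule.span κ (Set.range fun x : Fin r × (Fin s → Fin (u + 1)) =>
    (∏ i, y i ^ (x.2 i : ℕ)) * z x.1)

theorem vsp_mem {u : ℕ} (γ : Fin s → ℕ) (l : Fin r) (h : ∀ i, γ i ≤ u) :
    (∏ i, y i ^ γ i) * z l ∈ Vsp κ y z u :=
  Submodule.subset_span ⟨(l, fun i => ⟨γ i, Nat.lt_succ_of_le (h i)⟩), rfl⟩

theorem vsp_mono {u v : ℕ} (h : u ≤ v) : Vsp κ y z u ≤ Vsp κ y z v := by
  refine Submodule.span_le.2 ?_
  rintro _ ⟨x, rfl⟩
  exact vsp_mem κ y z (fun i => (x.2 i : ℕ)) x.1 fun i => le_trans (Nat.le_of_lt_succ (x.2 i).2) h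

theorem vsp_rank (u : ℕ) : Module.finrank κ (Vsp κ y z u) ≤ r * (u + 1) ^ s := by
  have h1 := finrank_range_le_card (R := κ) (fun x : Fin r × (Fin s → Fin (u + 1)) =>
    (∏ i, y i ^ (x.2 i : ℕ)) * z x.1)
  rw [Fintype.card_prod, Fintype.card_fun, Fintype.card_fin, Fintype.card_fin,
    Fintype.card_fin] at h1
  exact h1

theorem vsp_fin (u : ℕ) : FiniteDimensional κ (Vsp κ y z u) :=
  FiniteDimensional.span_of_finite κ (Set.finite_range _)

theorem vsp_poly {u D : ℕ} (γ : Fin s → ℕ) (l : Fin r) (h : ∀ i, γ i ≤ u)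
    (p : MvPolynomial (Fin s) κ) (hp : p.totalDegree ≤ D) :
    (∏ i, y i ^ γ i) * (MvPolynomial.aeval y p * z l) ∈ Vsp κ y z (u + D) := by
  have h1 : MvPolynomial.aeval y p = ∑ d ∈ p.support,
      algebraMap κ C (MvPolynomial.coeff d p) * ∏ i, y i ^ d i := by
    rw [MvPolynomial.aeval_def]
    exact MvPolynomial.eval₂_eq' _ _ _
  rw [h1, Finset.sum_mul, Finset.mul_sum]
  refine Submodule.sum_mem _ fun d hd => ?_
  have h2 : (∏ i, y i ^ γ i) * (algebraMap κ C (MvPolynomial.coeff d p) *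
      (∏ i, y i ^ d i) * z l) = (MvPolynomial.coeff d p) •
      ((∏ i, y i ^ (γ i + d i)) * z l) := by
    rw [Algebra.smul_def]
    have h3 : (∏ i, y i ^ (γ i + d i)) = (∏ i, y i ^ γ i) * ∏ i, y i ^ d i := by
      rw [← Finset.prod_mul_distrib]
      exact Finset.prod_congr rfl fun i _ => pow_add _ _ _
    rw [h3]
    ring
  rw [h2]
  refine Submodule.smul_mem _ _ (vsp_mem κ y z (fun i => γ i + d i) l fun i => ?_)
  have h4 : d i ≤ D := le_trans (MvPolynomial.monomial_le_degreeOf i hd)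
    (le_trans (MvPolynomial.degreeOf_le_totalDegree p i) hp)
  exact Nat.add_le_add (h i) h4

theorem vsp_mul {D : ℕ} (f : C) (P : Fin r → Fin r → MvPolynomial (Fin s) κ)
    (hP : ∀ j l, (P j l).totalDegree ≤ D)
    (hf : ∀ j, f * z j = ∑ l, MvPolynomial.aeval y (P j l) * z l) (u : ℕ) (w : C)
    (hw : w ∈ Vsp κ y z u) : f * w ∈ Vsp κ y z (u + D) := by
  have h1 : Vsp κ y z u ≤ (Vsp κ y z (u + D)).comap (LinearMap.mulLeft κ f) := by
    refine Submodule.span_le.2 ?_
    rintro _ ⟨x, rfl⟩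
    change f * ((∏ i, y i ^ (x.2 i : ℕ)) * z x.1) ∈ Vsp κ y z (u + D)
    have h2 : f * ((∏ i, y i ^ (x.2 i : ℕ)) * z x.1) =
        ∑ l, (∏ i, y i ^ (x.2 i : ℕ)) * (MvPolynomial.aeval y (P x.1 l) * z l) := by
      rw [← Finset.mul_sum, ← hf]
      ring
    rw [h2]
    refine Submodule.sum_mem _ fun l _ => ?_
    exact vsp_poly κ y z (fun i => (x.2 i : ℕ)) l
      (fun i => Nat.le_of_lt_succ (x.2 i).2) _ (hP _ _)
  exact h1 hw

theorem vsp_pow {D : ℕ} (f : C) (P : Fin r → Fin r → MvPolynomial (Fin s) κ)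
    (hP : ∀ j l, (P j l).totalDegree ≤ D)
    (hf : ∀ j, f * z j = ∑ l, MvPolynomial.aeval y (P j l) * z l) (k u : ℕ) (w : C)
    (hw : w ∈ Vsp κ y z u) : f ^ k * w ∈ Vsp κ y z (u + D * k) := by
  induction k with
  | zero => simpa using hw
  | succ k ih =>
    have h1 := vsp_mul κ y z f P hP hf _ _ ih
    rw [pow_succ', mul_assoc]
    have h2 : u + D * (k + 1) = u + D * k + D := by ring
    rw [h2]
    exact h1

theorem vsp_prod {D q : ℕ} (f : Fin q → C)
    (P : Fin q → Fin r → Fin r → MvPolynomial (Fin s) κ)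
    (hP : ∀ i j l, (P i j l).totalDegree ≤ D)
    (hf : ∀ i j, f i * z j = ∑ l, MvPolynomial.aeval y (P i j l) * z l) (α : Fin q → ℕ)
    (S : Finset (Fin q)) (u : ℕ) (w : C) (hw : w ∈ Vsp κ y z u) :
    (∏ i ∈ S, f i ^ α i) * w ∈ Vsp κ y z (u + D * ∑ i ∈ S, α i) := by
  classical
  induction S using Finset.induction_on with
  | empty => simpa using hw
  | insert a S ha ih =>
    rw [Finset.prod_insert ha, Finset.sum_insert ha, mul_assoc]
    have h1 := vsp_pow κ y z (f a) (P a) (hP a) (hf a) (α a) _ _ ih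
    have h2 : u + D * (α a + ∑ i ∈ S, α i) = u + D * ∑ i ∈ S, α i + D * α a := by ring
    rw [h2]
    exact h1

end

theorem pf_GRW : T_GRW := by
  classical
  intro n q κ C _ _ _ _ f htr
  set R0 : Subalgebra κ C := Algebra.adjoin κ (Set.range f) with hR0
  have hfg : R0.FG := Subalgebra.fg_def.2 ⟨Set.range f, Set.finite_range f, rfl⟩
  haveI hft : Algebra.FiniteType κ R0 := R0.fg_iff_finiteType.1 hfg
  obtain ⟨s, g, hinj, hfin⟩ := exists_finite_inj_algHom_of_fg κ R0
  set y : Fin s → C := fun i => ((g (MvPolynomial.X i) : R0) : C) with hy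
  have hgy : ∀ p : MvPolynomial (Fin s) κ, ((g p : R0) : C) = MvPolynomial.aeval y p := by
    intro p
    have h1 : (R0.val.comp g) = MvPolynomial.aeval y := by
      rw [MvPolynomial.aeval_unique (R0.val.comp g)]
      rfl
    exact DFunLike.congr_fun h1 p
  -- the number of variables
  have hs : s ≤ n := by
    have hai : AlgebraicIndependent κ y := by
      intro p₁ p₂ h
      rw [← hgy, ← hgy] at h
      exact hinj (Subtype.ext h)
    have h1 := hai.lift_cardinalMk_le_trdeg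
    rw [htr, Cardinal.mk_fin] at h1
    simpa using h1
  -- the generators
  letI : Algebra (MvPolynomial (Fin s) κ) R0 := g.toRingHom.toAlgebra
  haveI hmf : Module.Finite (MvPolynomial (Fin s) κ) R0 := hfin
  obtain ⟨r, z0, hz0⟩ := Module.Finite.exists_fin (R := MvPolynomial (Fin s) κ) (M := R0)
  set z : Fin r → C := fun l => (z0 l : C) with hz
  have hrep : ∀ w : R0, ∃ c : Fin r → MvPolynomial (Fin s) κ,
      (w : C) = ∑ l, MvPolynomial.aeval y (c l) * z l := by
    intro w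
    have h1 : w ∈ Submodule.span (MvPolynomial (Fin s) κ) (Set.range z0) := by
      rw [hz0]
      exact Submodule.mem_top
    obtain ⟨c, hc⟩ := (Submodule.mem_span_range_iff_exists_fun _).1 h1
    refine ⟨c, ?_⟩
    rw [← hc]
    have h2 : ((∑ i, c i • z0 i : R0) : C) = ∑ i, ((c i • z0 i : R0) : C) := by
      exact map_sum R0.val _ _
    rw [h2]
    refine Finset.sum_congr rfl fun i _ => ?_
    rw [← hgy]
    rfl
  choose c hc using hrep
  have hfR : ∀ i, f i ∈ R0 := fun i => Algebra.subset_adjoin ⟨i, rfl⟩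
  set P : Fin q → Fin r → Fin r → MvPolynomial (Fin s) κ :=
    fun i j l => c (⟨f i, hfR i⟩ * z0 j) l with hP
  set D : ℕ := (∑ i, ∑ j, ∑ l, (P i j l).totalDegree) + ∑ l, (c 1 l).totalDegree with hD
  have hPD : ∀ i j l, (P i j l).totalDegree ≤ D := by
    intro i j l
    have h1 : (P i j l).totalDegree ≤ ∑ l, (P i j l).totalDegree :=
      Finset.single_le_sum (f := fun l => (P i j l).totalDegree) (fun _ _ => Nat.zero_le _)
        (Finset.mem_univ l)
    have h2 : (∑ l, (P i j l).totalDegree) ≤ ∑ j, ∑ l, (P i j l).totalDegree :=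
      Finset.single_le_sum (f := fun j => ∑ l, (P i j l).totalDegree)
        (fun _ _ => Nat.zero_le _) (Finset.mem_univ j)
    have h3 : (∑ j, ∑ l, (P i j l).totalDegree) ≤ ∑ i, ∑ j, ∑ l, (P i j l).totalDegree :=
      Finset.single_le_sum (f := fun i => ∑ j, ∑ l, (P i j l).totalDegree)
        (fun _ _ => Nat.zero_le _) (Finset.mem_univ i)
    omega
  have hcD : ∀ l, (c 1 l).totalDegree ≤ D := by
    intro l
    have h1 : (c 1 l).totalDegree ≤ ∑ l, (c 1 l).totalDegree :=
      Finset.single_le_sum (f := fun l => (c 1 l).totalDegree) (fun _ _ => Nat.zero_le _)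
        (Finset.mem_univ l)
    omega
  have hfP : ∀ i j, f i * z j = ∑ l, MvPolynomial.aeval y (P i j l) * z l := by
    intro i j
    have h1 := hc (⟨f i, hfR i⟩ * z0 j)
    rw [← h1]
    rfl
  have hone : (1 : C) ∈ Vsp κ y z D := by
    have h1 := hc 1
    have h2 : ((1 : R0) : C) = 1 := rfl
    rw [h2] at h1
    rw [h1]
    refine Submodule.sum_mem _ fun l _ => ?_
    have h3 := vsp_poly κ y z (u := 0) (D := D) (fun _ => 0) l (fun _ => le_rfl) (c 1 l) (hcD l)
    simpa using h3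
  refine ⟨r * (D + 1) ^ s, fun t => ?_⟩
  have hle : Wsp κ f (Fin.elim0 : Fin 0 → C) t 0 ≤ Vsp κ y z (D + D * t) := by
    refine Submodule.span_le.2 ?_
    rintro _ ⟨α, β, hα, -, rfl⟩
    have h1 := vsp_prod κ y z f P hPD hfP α Finset.univ D 1 hone
    have h2 : (∏ i, (Fin.elim0 : Fin 0 → C) i ^ β i) = 1 := by simp
    rw [h2]
    exact vsp_mono κ y z (by gcongr) h1
  haveI := vsp_fin κ y z (D + D * t)
  refine le_trans (Submodule.finrank_mono hle) (le_trans (vsp_rank κ y z _) ?_)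
  have h3 : D + D * t + 1 ≤ (D + 1) * (t + 1) := by nlinarith
  calc r * (D + D * t + 1) ^ s ≤ r * ((D + 1) * (t + 1)) ^ s := by gcongr
    _ = r * (D + 1) ^ s * (t + 1) ^ s := by rw [mul_pow]; ring
    _ ≤ r * (D + 1) ^ s * (t + 1) ^ n := by
      gcongr
      omega

end Pool.Agent.H51.EDM
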